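import Pool.Agent.H95.GY.Targets

/-!
# MP_c39b0e_gt: module FAM
-/

set_option autoImplicit false

open Filter Topology MeasureTheory Set
open scoped Pointwise

universe u v

namespace Pool.Agent.H58.GY

open Pool.Agent.H95.GY

/-- conjugates of a compact subgroup by elements near the identity lie in a given open
neighbourhood of it -/
theorem eventually_conj {G : Type u} [Group G] [TopologicalSpace G] [IsTopologicalGroup G]
    (N : Subgroup G) (hN : IsCompact (N : Set G)) (O : Set G) (hO : IsOpen O)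
    (hNO : (N : Set G) ⊆ O) :
    ∀ᶠ g in 𝓝 (1 : G), ∀ n ∈ (N : Set G), g * n * g⁻¹ ∈ O := by
  refine hN.eventually_forall_of_forall_eventually (fun y hy => ?_)
  have h1 : Continuous fun p : G × G => p.1 * p.2 * p.1⁻¹ := by fun_prop
  have h2 : Tendsto (fun p : G × G => p.1 * p.2 * p.1⁻¹) (𝓝 (1, y)) (𝓝 y) := by
    have h3 := h1.tendsto (1, y)
    simpa using h3
  exact h2 (hO.mem_nhds (hNO hy))

theorem conj_mem_of_trap {G : Type u} [Group G] (N H : Subgroup G) (O : Set G)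
    (hT : ∀ H : Subgroup G, (H : Set G) ⊆ O → H ≤ N) (g : G)
    (hg : ∀ n ∈ H, g * n * g⁻¹ ∈ O) : ∀ n ∈ H, g * n * g⁻¹ ∈ N := by
  have h1 : H.map (MulAut.conj g).toMonoidHom ≤ N := by
    apply hT
    rintro x ⟨n, hn, rfl⟩
    exact hg n hn
  intro n hn
  exact h1 ⟨n, hn, rfl⟩

theorem pf_FAM (hGYS : T_GYS.{u}) : T_FAM.{u} := by
  intro G _ _ _ _ _ hac U hU
  obtain ⟨N, hNc, hNU, O, hO, hNO, hT⟩ := hGYS G U hU
  have hac' : CompactSpace (G ⧸ Subgroup.connectedComponentOfOne G) := hac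
  let P : Subgroup G :=
    { carrier := {g | (∀ n ∈ N, g * n * g⁻¹ ∈ N) ∧ ∀ n ∈ N, g⁻¹ * n * g ∈ N}
      one_mem' := ⟨fun n hn => by simpa using hn, fun n hn => by simpa using hn⟩
      mul_mem' := by
        rintro a b ⟨ha1, ha2⟩ ⟨hb1, hb2⟩
        refine ⟨fun n hn => ?_, fun n hn => ?_⟩
        · have h := ha1 _ (hb1 n hn)
          have h' : a * (b * n * b⁻¹) * a⁻¹ = a * b * n * (a * b)⁻¹ := by group
          rwa [h'] at h
        · have h := hb2 _ (ha2 n hn)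
          have h' : b⁻¹ * (a⁻¹ * n * a) * b = (a * b)⁻¹ * n * (a * b) := by group
          rwa [h'] at h
      inv_mem' := by
        rintro a ⟨ha1, ha2⟩
        refine ⟨fun n hn => ?_, fun n hn => ?_⟩
        · simpa using ha2 n hn
        · simpa using ha1 n hn }
  have hPm : ∀ g, g ∈ P ↔ (∀ n ∈ N, g * n * g⁻¹ ∈ N) ∧ ∀ n ∈ N, g⁻¹ * n * g ∈ N :=
    fun g => Iff.rfl
  have hPn : (P : Set G) ∈ 𝓝 (1 : G) := by
    have h1 := eventually_conj N hNc O hO hNO
    have h2 : ∀ᶠ g in 𝓝 (1 : G), ∀ n ∈ (N : Set G), g⁻¹ * n * g⁻¹⁻¹ ∈ O := by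
      have h3 : Tendsto (fun g : G => g⁻¹) (𝓝 1) (𝓝 1) := by
        have := tendsto_inv (1 : G)
        rwa [inv_one] at this
      exact h3.eventually h1
    filter_upwards [h1, h2] with g hg1 hg2
    refine ⟨conj_mem_of_trap N N O hT g hg1, ?_⟩
    have h3 := conj_mem_of_trap N N O hT g⁻¹ hg2
    simpa using h3
  have hPo : IsOpen (P : Set G) := P.isOpen_of_mem_nhds hPn
  have hPcl : IsClopen (P : Set G) := ⟨P.isClosed_of_isOpen hPo, hPo⟩
  have hG0 : ∀ x ∈ Subgroup.connectedComponentOfOne G, x ∈ P := by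
    intro x hx
    exact hPcl.connectedComponent_subset P.one_mem hx
  obtain ⟨t, ht⟩ := (isCompact_univ : IsCompact
    (univ : Set (G ⧸ Subgroup.connectedComponentOfOne G))).elim_finite_subcover
    (fun g : G => (QuotientGroup.mk : G → G ⧸ Subgroup.connectedComponentOfOne G) ''
      {x | g⁻¹ * x ∈ P})
    (fun g => QuotientGroup.isOpenMap_coe _ (hPo.preimage (continuous_const_mul g⁻¹)))
    (fun y _ => by
      obtain ⟨x, rfl⟩ := QuotientGroup.mk_surjective y
      refine mem_iUnion.2 ⟨x, x, ?_, rfl⟩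
      simp [P.one_mem])
  have hrep : ∀ a : G, ∃ g ∈ t, g⁻¹ * a ∈ P := by
    intro a
    have h1 := ht (mem_univ (QuotientGroup.mk a))
    simp only [mem_iUnion, exists_prop] at h1
    obtain ⟨g, hg, x, hx, hxa⟩ := h1
    refine ⟨g, hg, ?_⟩
    have h2 : x⁻¹ * a ∈ P := hG0 _ (QuotientGroup.eq.1 hxa)
    have h3 : g⁻¹ * a = (g⁻¹ * x) * (x⁻¹ * a) := by group
    rw [h3]
    exact P.mul_mem hx h2
  refine ⟨N.normalCore, ⟨inferInstance, ?_, ?_⟩, ?_⟩
  · exact hNc.of_isClosed_subset (N.normalCore_isClosed hNc.isClosed) N.normalCore_le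
  · refine ⟨⋂ g ∈ t, {x | g⁻¹ * x * g ∈ O}, ?_, ?_, ?_⟩
    · refine isOpen_biInter_finset fun g _ => ?_
      have h1 : Continuous fun x : G => g⁻¹ * x * g := by fun_prop
      exact hO.preimage h1
    · intro x hx
      refine mem_iInter₂.2 fun g _ => hNO ?_
      have h1 := hx g⁻¹
      rw [inv_inv] at h1
      exact h1
    · intro H hH x hx b
      obtain ⟨g, hg, hp⟩ := hrep b⁻¹
      have h1 : ∀ n ∈ H, g⁻¹ * n * g⁻¹⁻¹ ∈ O := by
        intro n hn
        have h2 := mem_iInter₂.1 (hH hn) g hg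
        rw [inv_inv]
        exact h2
      have h2 := conj_mem_of_trap N H O hT g⁻¹ h1 x hx
      have h3 := ((hPm _).1 hp).2 _ h2
      have h4 : (g⁻¹ * b⁻¹)⁻¹ * (g⁻¹ * x * g⁻¹⁻¹) * (g⁻¹ * b⁻¹) = b * x * b⁻¹ := by group
      rw [h4] at h3
      exact h3
  · intro x hx
    exact hNU (N.normalCore_le hx)

end Pool.Agent.H58.GY
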