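import Pool.Agent.H95.GY.Targets

/-!
# MP_c39b0e_gt: module FF
-/

set_option autoImplicit false

open Filter Topology MeasureTheory Set
open scoped Pointwise

universe u v

namespace Pool.Agent.H58.GY

open Pool.Agent.H95.GY

theorem nu_pow_le {Q : Type u} [Group Q] [TopologicalSpace Q] {ν : Q → ℝ} {r C : ℝ}
    (h : PreG ν r C) (g : Q) (n : ℕ) : ν (g ^ n) ≤ n * ν g := by
  induction n with
  | zero => simp [h.one]
  | succ n ih =>
    rw [pow_succ]
    have h1 := h.mul (g ^ n) g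
    push_cast
    linarith

theorem ff_identity {Q : Type u} [Group Q] (g h : Q) (j : ℕ) :
    (g * h) ^ (j + 1) * (g ^ (j + 1) * h ^ (j + 1))⁻¹ =
      ((g * h) * ((g * h) ^ j * (g ^ j * h ^ j)⁻¹) * (g * h)⁻¹) *
        (g * (h * g ^ j * h⁻¹ * (g ^ j)⁻¹) * g⁻¹) := by
  rw [pow_succ' (g * h) j, pow_succ' g j, pow_succ' h j]
  simp only [mul_inv_rev, mul_assoc, inv_mul_cancel_left, mul_inv_cancel_left]

theorem pf_FF : T_FF.{u} := by
  intro Q _ _ _ _ ν φ r C hGD
  have hC : 1 ≤ C := hGD.C_pos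
  have hC0 : 0 < C := by linarith
  have hr : 0 < r := hGD.r_pos
  have hP : PreG ν r C := hGD.toPreG
  obtain ⟨s, hs0, hs1, hs2, hs3, hs4⟩ : ∃ s : ℝ, 0 < s ∧ s ≤ r / 2 ∧ s ≤ 1 / (2 * C) ∧
      s ≤ r / (3 * C ^ 2) ∧ s ≤ 1 := by
    refine ⟨min (r / 2) (min (1 / (2 * C)) (min (r / (3 * C ^ 2)) 1)), ?_, ?_, ?_, ?_, ?_⟩
    · exact lt_min (by positivity) (lt_min (by positivity) (lt_min (by positivity) one_pos))
    · exact min_le_left _ _
    · exact (min_le_right _ _).trans (min_le_left _ _)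
    · exact (min_le_right _ _).trans ((min_le_right _ _).trans (min_le_left _ _))
    · exact (min_le_right _ _).trans ((min_le_right _ _).trans (min_le_right _ _))
  refine ⟨s, hs0, 3 * C ^ 2, by positivity, fun g h n hg hh => ?_⟩
  have hνg : 0 ≤ ν g := hP.nonneg g
  have hνh : 0 ≤ ν h := hP.nonneg h
  set δ : ℝ := ν g + ν h with hδ
  have hδ0 : 0 ≤ δ := by positivity
  have hexp : ∀ j ≤ n, (1 + C * δ) ^ j ≤ 3 := by
    intro j hj
    have h1 : (1 + C * δ) ^ j ≤ (Real.exp (C * δ)) ^ j := by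
      have h0 : 1 + C * δ ≤ Real.exp (C * δ) := by
        have := Real.add_one_le_exp (C * δ)
        linarith
      exact pow_le_pow_left₀ (by positivity) h0 j
    rw [← Real.exp_nat_mul] at h1
    have hjn : (j : ℝ) ≤ n := by exact_mod_cast hj
    have h2 : (j : ℝ) * (C * δ) ≤ 1 := by
      have h3 : (j : ℝ) * (C * δ) ≤ n * (C * δ) :=
        mul_le_mul_of_nonneg_right hjn (by positivity)
      have h4 : (n : ℝ) * (C * δ) = C * (n * ν g + n * ν h) := by rw [hδ]; ring
      have h5 : C * (n * ν g + n * ν h) ≤ C * (2 * s) :=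
        mul_le_mul_of_nonneg_left (by linarith) hC0.le
      have h6 : C * (2 * s) ≤ 1 := by
        have := mul_le_mul_of_nonneg_left hs2 (by positivity : (0 : ℝ) ≤ 2 * C)
        have h7 : 2 * C * (1 / (2 * C)) = 1 := by field_simp
        linarith
      linarith
    have h3 : Real.exp ((j : ℝ) * (C * δ)) ≤ Real.exp 1 := Real.exp_le_exp.2 h2
    have h4 := Real.exp_one_lt_d9
    linarith
  have key : ∀ j ≤ n, ν ((g * h) ^ j * (g ^ j * h ^ j)⁻¹) ≤
      (1 + C * δ) ^ j * (C ^ 2 * j ^ 2 * ν g * ν h) := by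
    intro j
    induction j with
    | zero => intro _; simp [hP.one]
    | succ j ih =>
      intro hj
      have hjn : j ≤ n := by omega
      have ih' := ih hjn
      set u := (g * h) ^ j * (g ^ j * h ^ j)⁻¹ with hu
      have hu0 : 0 ≤ ν u := hP.nonneg u
      have hn1 : (1 : ℝ) ≤ n := by
        have : 1 ≤ n := by omega
        exact_mod_cast this
      have hjr : (j : ℝ) ≤ n := by exact_mod_cast hjn
      have hj0 : (0 : ℝ) ≤ j := by positivity
      have hg1 : ν g ≤ s := by nlinarith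
      have hh1 : ν h ≤ s := by nlinarith
      have hjg : (j : ℝ) * ν g ≤ s := by nlinarith
      have hjh : (j : ℝ) * ν h ≤ s := by nlinarith
      have hjg0 : 0 ≤ (j : ℝ) * ν g := by positivity
      have hjh0 : 0 ≤ (j : ℝ) * ν h := by positivity
      have hC2 : 0 < C ^ 2 := by positivity
      have hur : ν u ≤ r := by
        have h1 : ν u ≤ 3 * (C ^ 2 * j ^ 2 * ν g * ν h) :=
          ih'.trans (mul_le_mul_of_nonneg_right (hexp j hjn) (by positivity))
        have h2 : 3 * (C ^ 2 * j ^ 2 * ν g * ν h) = 3 * C ^ 2 * ((j * ν g) * (j * ν h)) := by ring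
        have h3 : ((j : ℝ) * ν g) * (j * ν h) ≤ s * 1 :=
          mul_le_mul hjg (hjh.trans hs4) hjh0 hs0.le
        have h4 : 3 * C ^ 2 * (((j : ℝ) * ν g) * (j * ν h)) ≤ 3 * C ^ 2 * (r / (3 * C ^ 2)) :=
          mul_le_mul_of_nonneg_left (by linarith) (by positivity)
        have h5 : 3 * C ^ 2 * (r / (3 * C ^ 2)) = r := by field_simp
        linarith
      have hz : ν (g * h) ≤ δ := hP.mul g h
      have hz0 : 0 ≤ ν (g * h) := hP.nonneg _
      have hzr : ν (g * h) ≤ r := by linarith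
      have h1 : ν ((g * h) * u * (g * h)⁻¹) ≤ (1 + C * δ) * ν u := by
        have h2 := hGD.comm (g * h) u hzr hur
        have h3 := hP.mul ((g * h) * u * (g * h)⁻¹ * u⁻¹) u
        rw [inv_mul_cancel_right] at h3
        have h4 : C * ν (g * h) * ν u ≤ C * δ * ν u :=
          mul_le_mul_of_nonneg_right (mul_le_mul_of_nonneg_left hz hC0.le) hu0
        linarith
      have h2 : ν (g * (h * g ^ j * h⁻¹ * (g ^ j)⁻¹) * g⁻¹) ≤ C ^ 2 * j * ν g * ν h := by
        have h3 := hP.conj (h * g ^ j * h⁻¹ * (g ^ j)⁻¹) g (by linarith)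
        have h4 := nu_pow_le hP g j
        have h5 := hGD.comm h (g ^ j) (by linarith) (by linarith)
        have h6 : C * ν h * ν (g ^ j) ≤ C * ν h * (j * ν g) :=
          mul_le_mul_of_nonneg_left h4 (by positivity)
        have h7 : C * ν (h * g ^ j * h⁻¹ * (g ^ j)⁻¹) ≤ C * (C * ν h * (j * ν g)) :=
          mul_le_mul_of_nonneg_left (h5.trans h6) hC0.le
        have h8 : C * (C * ν h * (j * ν g)) = C ^ 2 * j * ν g * ν h := by ring
        linarith
      rw [ff_identity g h j, ← hu]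
      have h3 := hP.mul ((g * h) * u * (g * h)⁻¹) (g * (h * g ^ j * h⁻¹ * (g ^ j)⁻¹) * g⁻¹)
      have hq : 1 ≤ 1 + C * δ := by nlinarith
      have h4 : (1 + C * δ) * ν u ≤ (1 + C * δ) ^ (j + 1) * (C ^ 2 * j ^ 2 * ν g * ν h) := by
        rw [pow_succ', mul_assoc]
        exact mul_le_mul_of_nonneg_left ih' (by positivity)
      have h5 : C ^ 2 * j * ν g * ν h ≤ (1 + C * δ) ^ (j + 1) * (C ^ 2 * j * ν g * ν h) :=
        le_mul_of_one_le_left (by positivity) (one_le_pow₀ hq)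
      have h6 : (1 + C * δ) ^ (j + 1) * (C ^ 2 * j ^ 2 * ν g * ν h) +
          (1 + C * δ) ^ (j + 1) * (C ^ 2 * j * ν g * ν h) ≤
          (1 + C * δ) ^ (j + 1) * (C ^ 2 * ((j + 1 : ℕ) : ℝ) ^ 2 * ν g * ν h) := by
        rw [← mul_add]
        refine mul_le_mul_of_nonneg_left ?_ (by positivity)
        have h7 : C ^ 2 * ((j + 1 : ℕ) : ℝ) ^ 2 * ν g * ν h - (C ^ 2 * j ^ 2 * ν g * ν h +
            C ^ 2 * j * ν g * ν h) = C ^ 2 * (j + 1) * ν g * ν h := by
          push_cast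
          ring
        have h8 : 0 ≤ C ^ 2 * ((j : ℝ) + 1) * ν g * ν h := by positivity
        linarith
      linarith
  have h1 := key n le_rfl
  have h2 : (1 + C * δ) ^ n * (C ^ 2 * n ^ 2 * ν g * ν h) ≤ 3 * (C ^ 2 * n ^ 2 * ν g * ν h) :=
    mul_le_mul_of_nonneg_right (hexp n le_rfl) (by positivity)
  have h3 : 3 * (C ^ 2 * (n : ℝ) ^ 2 * ν g * ν h) = 3 * C ^ 2 * n ^ 2 * ν g * ν h := by ring
  linarith

end Pool.Agent.H58.GY
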