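import Pool.Agent.H95.GY.Targets

/-!
# MP_c39b0e_gt: module UL
-/

set_option autoImplicit false

open Filter Topology MeasureTheory Set
open scoped Pointwise

universe u v

namespace Pool.Agent.H58.GY

open Pool.Agent.H95.GY

theorem pf_UL : T_UL.{u, v} := by
  intro G _ _ _ _ _ ι ω A S hA hSA hone hinv hmul
  have hcl : IsClosed A := hA.isClosed
  let P : G → Prop := fun x => ∀ W ∈ 𝓝 x, ∀ᶠ i in ω, (W ∩ S i).Nonempty
  have hPmul : ∀ x y, P x → P y → P (x * y) := by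
    intro x y hx hy W hW
    have hcont : Tendsto (fun p : G × G × G => p.1 * p.2.1 * p.2.2⁻¹) (𝓝 (x, y, 1))
        (𝓝 (x * y)) := by
      have h1 : Continuous fun p : G × G × G => p.1 * p.2.1 * p.2.2⁻¹ := by fun_prop
      have h2 := h1.tendsto (x, y, 1)
      simpa using h2
    have h1 := hcont hW
    rw [mem_map, nhds_prod_eq, nhds_prod_eq] at h1
    obtain ⟨Wx, hWx, W', hW', hsub⟩ := mem_prod_iff.1 h1
    obtain ⟨Wy, hWy, W1, hW1, hsub'⟩ := mem_prod_iff.1 hW'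
    filter_upwards [hx Wx hWx, hy Wy hWy, hmul W1 hW1] with i hi1 hi2 hi3
    obtain ⟨s, hs, hsS⟩ := hi1
    obtain ⟨t, ht, htS⟩ := hi2
    obtain ⟨u, hu, w, hw, huw⟩ := Set.mem_mul.1 (hi3 (Set.mul_mem_mul hsS htS))
    have h2 : (s, t, w) ∈ Wx ×ˢ W' := ⟨hs, hsub' ⟨ht, hw⟩⟩
    have h3 := hsub h2
    refine ⟨u, ?_, hu⟩
    have h4 : u = s * t * w⁻¹ := by rw [← huw, mul_inv_cancel_right]
    rw [h4]
    exact h3
  have hPone : P 1 := fun W hW => Eventually.of_forall fun i => ⟨1, mem_of_mem_nhds hW, hone i⟩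
  have hPinv : ∀ x, P x → P x⁻¹ := by
    intro x hx W hW
    have h1 : (fun z : G => z⁻¹) ⁻¹' W ∈ 𝓝 x := by
      have h2 : Tendsto (fun z : G => z⁻¹) (𝓝 x) (𝓝 x⁻¹) := tendsto_inv x
      exact h2 hW
    filter_upwards [hx _ h1] with i hi
    obtain ⟨s, hs, hsS⟩ := hi
    exact ⟨s⁻¹, hs, hinv i s hsS⟩
  let E : Subgroup G :=
    { carrier := {x | P x}
      mul_mem' := fun {x y} hx hy => hPmul x y hx hy
      one_mem' := hPone
      inv_mem' := fun {x} hx => hPinv x hx }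
  have hmem : ∀ x, x ∈ E ↔ P x := fun x => Iff.rfl
  have hEA : (E : Set G) ⊆ A := by
    intro x hx
    by_contra hxA
    have h1 : Aᶜ ∈ 𝓝 x := hcl.isOpen_compl.mem_nhds hxA
    have h2 := (hx Aᶜ h1).and hSA
    obtain ⟨i, ⟨z, hz, hzS⟩, hi⟩ := h2.exists
    exact hz (hi hzS)
  have hEcl : IsClosed (E : Set G) := by
    rw [← closure_subset_iff_isClosed]
    intro x hx W hW
    obtain ⟨W', hW'W, hW'o, hxW'⟩ := mem_nhds_iff.1 hW
    obtain ⟨z, hzW', hzE⟩ := mem_closure_iff.1 hx W' hW'o hxW'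
    have h1 : W ∈ 𝓝 z := mem_of_superset (hW'o.mem_nhds hzW') hW'W
    exact hzE W h1
  refine ⟨E, hA.of_isClosed_subset hEcl hEA, hEA, hmem, fun y hy => ?_⟩
  obtain ⟨W0, hW0c, hW0⟩ := exists_compact_mem_nhds (1 : G)
  have hAW : IsCompact (A * W0) := hA.mul hW0c
  have h1 : ∀ᶠ i in ω, y i ∈ A * W0 := by
    filter_upwards [hSA, hy W0 hW0] with i hi1 hi2
    exact Set.mul_subset_mul_right hi1 hi2
  have h2 : (↑(ω.map y) : Filter G) ≤ 𝓟 (A * W0) := by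
    rw [le_principal_iff]
    exact h1
  obtain ⟨x, -, hx⟩ := hAW.ultrafilter_le_nhds (ω.map y) h2
  have hx' : Tendsto y ω (𝓝 x) := hx
  refine ⟨x, fun W hW => ?_, hx'⟩
  have hcont : Tendsto (fun p : G × G => p.1 * p.2⁻¹) (𝓝 (x, 1)) (𝓝 x) := by
    have h1 : Continuous fun p : G × G => p.1 * p.2⁻¹ := by fun_prop
    have h2 := h1.tendsto (x, 1)
    simpa using h2
  have h3 := hcont hW
  rw [mem_map, nhds_prod_eq] at h3
  obtain ⟨W2, hW2, W1, hW1, hsub⟩ := mem_prod_iff.1 h3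
  filter_upwards [hx' hW2, hy W1 hW1] with i hi1 hi2
  obtain ⟨s, hs, w, hw, hsw⟩ := Set.mem_mul.1 hi2
  refine ⟨s, ?_, hs⟩
  have h4 : s = y i * w⁻¹ := by rw [← hsw, mul_inv_cancel_right]
  rw [h4]
  exact hsub (show (y i, w) ∈ W2 ×ˢ W1 from ⟨hi1, hw⟩)

end Pool.Agent.H58.GY
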